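import Pool.Agent.helper38.OB.Spec

set_option autoImplicit false

namespace Pool.Agent.OB

open Finset

theorem EVE (hEVU : EVU_stmt) (hEVL : EVL_stmt) : EVE_stmt := by
  intro h hev h2 A hC ε hε N
  by_contra hcon
  push Not at hcon
  have hD : Dense h A := ⟨ε, N, hε, hcon⟩
  obtain ⟨k, hk⟩ := hev
  have hk2 : h = 2 * k := by omega
  subst hk2
  have hk1 : 1 ≤ k := by omega
  obtain ⟨C, hC0, hU⟩ := hEVU k hk1 A hC hD
  obtain ⟨c, N0, hc0, hL⟩ := hEVL k hk1 A hD
  have ht : Filter.Tendsto (fun n : ℕ => Real.log (n : ℝ)) Filter.atTop Filter.atTop :=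
    Real.tendsto_log_atTop.comp tendsto_natCast_atTop_atTop
  obtain ⟨n, hn1, hn2⟩ := ((ht.eventually_gt_atTop (C / c)).and (Filter.eventually_ge_atTop (max N0 1))).exists
  have hn3 : N0 ≤ n := le_trans (le_max_left _ _) hn2
  have hn4 : 1 ≤ n := le_trans (le_max_right _ _) hn2
  have h1 := hL n hn3
  have h2' := hU n hn4
  have hn5 : (0 : ℝ) < n := by exact_mod_cast hn4
  rw [div_lt_iff₀ hc0] at hn1
  have h3 : C * (n : ℝ) < c * n * Real.log n := by
    have h4 := mul_lt_mul_of_pos_right hn1 hn5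
    nlinarith
  linarith

end Pool.Agent.OB
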